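import Pool.Agent.H59.KJ.Alm
import Pool.Agent.H59.KJ.Cut
import Pool.Agent.H59.KJ.Part
import Pool.Agent.H59.L.S8.R751.MB.Par
import Pool.Agent.H59.L.S8.R751.MB.Wht
import Pool.Agent.H59.L.S8.R751.MB.Gen

/-!
# The hyperplane conjecture of KLS for almost products, and for all known operations together

Q1 for the symmetric bodies of a class `Derived` of convex bodies which is closed under the operations
listed below. The constants depend on `s`, on the number `h` of operations (and on `A`), and not on the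
dimensions. The class starts with
* (`base`) the convex bodies with `WeakPoincare A`, that is with weak Poincare inequalities
  `Var v ≤ δ + A(δ) σ E ‖∇ v‖²` for all linear images with variances at most `σ`, all `δ > 0` and `|v| ≤ 1`,
  where `A` is any function which is fixed in advance (bodies with a Poincare inequality with constant
  `c₀` in isotropic position have `A(δ) = c₀ / (4 δ)`);
* (`polytope`) the polytopes in `ℝ^m` with at most `m + s` facets;
* (`particles`) the convex bodies in the space of configurations of `N` particles in `ℝ^d` which are invariant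
  under the permutations within `q` species of particles, `d, q ≤ s`.
All bodies of the class satisfy weak Poincare inequalities, with another function `A`.

New operations:

* (A) Almost products (`almost`). Let `K ⊂ ℝ^N × ℝ^M`, where `N` and `M` are ARBITRARY, be a convex body
  with `|B| |K_t| ≤ s |K|`, where `B ⊂ ℝ^M` is its projection (the base) and `K_t ⊂ ℝ^N` the largest of its
  fibres (so `K` has a definite part of the volume of a product; `s = 1` for products), whose fibres have
  their barycentre at `0` (or, after a linear change of coordinates and a translation, at an affine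
  function of the point of the base). If the TWO bodies `B` and `K_t` are in the class, then so is `K`.
  Nothing is assumed about the other fibres, about their dependence on the point of `ℝ^M`, about
  their covariances and about the law of the base. In `CentredFibrations` all fibres and the law
  of the base have to satisfy such inequalities, and the covariances of the fibres have to be bounded
  by that of `K`.
* (B) The base of an almost product (`project`). If `K` is in the class and `|B| |K_t| ≤ s |K|`, then the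
  projection `B` is in the class, for projections of ARBITRARY corank.
* (C) Bodies dominated by laws of linear images (`dominated`). If `K ⊂ ℝ^m` is in the class, `T : ℝ^m → ℝ^n` is
  linear and onto (of arbitrary corank), and the uniform law of the convex body `P ⊂ ℝ^n` is at most `s`
  times the law of `c + T x`, `x` uniform in `K`, outside a set of measure at most `ε`, then `P` is in the
  class; `ε` is an absolute constant. (`DominatedBodies` is about `m = n` and other starting bodies.)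
* (D) Cuts (`cut`): the intersections of a body of the class with `ℝ^N × Q`, where `Q ⊂ ℝ^j`, `j ≤ s`, is any
  convex set which contains the projection of the barycentre (the part cut off may be nearly the
  whole body; for instance slabs, balls, cubes and simplices `Q` of any size).

Operations of earlier files, there for different classes, which may now be mixed with each other and
with (A), (B), (C), (D): affine images with kernels of dimension at most `s` (`image`), adding at most `s`
dimensions (`lift`), large and central sections of codimension at most `s` (`large`, `central`), bodies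
with a large section of codimension at most `s` (`extend`), centred fibrations (`fibration`), products
(`product`), unconditional sums of at most `s` symmetric bodies (`sum`), bodies `L` with
`|(K + L) / 2|² ≤ s |K| |L|` (`deficit`). So the class is also closed under Minkowski sums with convex bodies
of dimension at most `s` and convex hulls with at most `s` points (these have the same image as `K`
under some linear map with a kernel of dimension at most `s`, up to a translation), and under passing to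
convex subsets and supersets of comparable volume (`deficit`). It contains the convex bodies `K` in
`(ℝ^d)^N` with `|K'| ≤ s |K|`, where `K'` is the Minkowski average of the images of `K` under the permutations
of the particles (`|(K + K') / 2| ≤ |K'|` by the Brunn-Minkowski inequality).

Method for (A). Let `R` be the volume of the largest fibre `K_m`, and `B₁` the set of the `t` with
`|K_t| ≥ R / (2 s)`. It is convex (Brunn-Minkowski), `|B₁| ≥ |B| / (2 s)`, and the part `K₁` of `K` over `B₁` has at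
least one half of the volume. (1) `(K_m + K_t) / 2` is contained in a fibre, so it has volume at most `R`:
the pair `K_m`, `K_t` has a bounded Brunn-Minkowski deficit for `t ∈ B₁`, so `K_t` satisfies the inequalities
by `BrunnMinkowskiDeficit`. (2) The second moments of any two fibres over `B₁` are comparable:
consider the part of `K` over the segment between the two points, a body fibred over an interval, and
a regression in one variable (`LargeSections`); the centring removes the linear term. (3) The law of the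
base of `K₁` and the uniform law on `B₁` have bounded densities relative to each other, and `B₁` is a part
of `B` of comparable volume. So `CentredFibrations` applies to `K₁`, and `K` and `K₁` have comparable
volumes. For (B): the uniform law on `B₁` is at most `4 s` times the law of the second component, so that
(C) applies. For (C): the uniform law on `P` is, up to a small part, the law of the image of `K` with a
bounded density, and concentration passes to it with a loss of the level (`DominatedBodies`); the loss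
is made good for convex bodies by `BrunnMinkowskiDeficit` with `L = K` (`boost` in `KJ.Ops`). This is also
the reason why all operations can be mixed: concentration at one fixed level is enough. For (D):
the central section is in the class, and it is a large section of the cut body.

The modules `Pool.Agent.H59.L` are copies of modules of the library (see the files there for the authors).
-/

set_option autoImplicit false

namespace Pool.Agent.Results.MP_dc1397_gt.AlmostProducts

open MeasureTheory Set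
open scoped ENNReal InnerProductSpace Pointwise

/-- Euclidean space of dimension `n` -/
abbrev Euc (n : ℕ) : Type := EuclideanSpace ℝ (Fin n)

/-- the uniform probability measure on `K` -/
noncomputable def unif {n : ℕ} (K : Set (Euc n)) : Measure (Euc n) :=
  (volume K)⁻¹ • volume.restrict K

/-- The inequalities `Var v(P x) ≤ δ + A(δ) σ E ‖∇ v(P x)‖²` for all `δ > 0`, all linear images `P x` of
`x` (of law `μ`), all bounds `σ` for the variances of the marginals of `P x` in directions of length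
one, and all `C¹` functions `v` with `|v| ≤ 1` and bounded gradient. They follow, with
`A(δ) = c₀ / (4 δ)`, from the Poincare inequality with constant `c₀` for `μ` in isotropic position. -/
def WeakPoincare (A : ℝ → ℝ) {M : ℕ} (μ : Measure (Euc M)) : Prop :=
  ∀ δ : ℝ, 0 < δ → ∀ (k : ℕ) (P : Euc M →ₗ[ℝ] Euc k) (σ : ℝ), 0 < σ →
  (∀ θ : Euc k, ‖θ‖ = 1 → ProbabilityTheory.variance (fun x => ⟪P x, θ⟫_ℝ) μ ≤ σ) →
  ∀ (v : Euc k → ℝ) (C : ℝ), ContDiff ℝ 1 v → (∀ y, |v y| ≤ 1) → (∀ y, ‖fderiv ℝ v y‖ ≤ C) →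
  ProbabilityTheory.variance (fun x => v (P x)) μ ≤ δ + A δ * σ * ∫ x, ‖fderiv ℝ v (P x)‖ ^ 2 ∂μ

/-- convex bodies -/
structure Body {n : ℕ} (K : Set (Euc n)) : Prop where
  comp : IsCompact K
  conv : Convex ℝ K
  int : (interior K).Nonempty

/-- the fibre over `t` of the set `K ⊂ ℝⁿ ≅ ℝ^N × ℝ^M` -/
def fibre {N M n : ℕ} (e : (Euc N × Euc M) ≃ₗ[ℝ] Euc n) (K : Set (Euc n)) (t : Euc M) :
    Set (Euc N) := {x | e (x, t) ∈ K}

/-- the component in `ℝ^N` of `z ∈ ℝⁿ ≅ ℝ^N × ℝ^M` -/
def first {N M n : ℕ} (e : (Euc N × Euc M) ≃ₗ[ℝ] Euc n) (z : Euc n) : Euc N := (e.symm z).1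

/-- the component in `ℝ^M` of `z ∈ ℝⁿ ≅ ℝ^N × ℝ^M` -/
def second {N M n : ℕ} (e : (Euc N × Euc M) ≃ₗ[ℝ] Euc n) (z : Euc n) : Euc M := (e.symm z).2

/-- the base: the projection to `ℝ^M` of the set `K ⊂ ℝⁿ ≅ ℝ^N × ℝ^M` -/
def base {N M n : ℕ} (e : (Euc N × Euc M) ≃ₗ[ℝ] Euc n) (K : Set (Euc n)) : Set (Euc M) :=
  {t | (fibre e K t).Nonempty}

/-- the fibres of positive volume have their barycentre at the origin -/
def CentredFibres {N M n : ℕ} (e : (Euc N × Euc M) ≃ₗ[ℝ] Euc n) (K : Set (Euc n)) : Prop :=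
  ∀ t, volume (fibre e K t) ≠ 0 → ∀ θ, ∫ x, ⟪x, θ⟫_ℝ ∂(unif (fibre e K t)) = 0

/-- the parallel sections have volume at most `s |K_t|` -/
def LargeFibre (s : ℕ) {N M n : ℕ} (e : (Euc N × Euc M) ≃ₗ[ℝ] Euc n) (K : Set (Euc n))
    (t : Euc M) : Prop := ∀ t', volume (fibre e K t') ≤ s * volume (fibre e K t)

/-- `t` is the projection of the barycentre of `K ⊂ ℝⁿ ≅ ℝ^N × ℝ^M` to `ℝ^M` -/
def Centre {N M n : ℕ} (e : (Euc N × Euc M) ≃ₗ[ℝ] Euc n) (K : Set (Euc n)) (t : Euc M) : Prop :=
  ∀ θ : Euc M, ∫ z, ⟪second e z, θ⟫_ℝ ∂(unif K) = ⟪t, θ⟫_ℝ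

/-- `K_t` is the largest fibre of `K ⊂ ℝⁿ ≅ ℝ^N × ℝ^M`, and `|B| |K_t| ≤ s |K|` for the base `B` (volumes in `ℝ^M`,
`ℝ^N` and `ℝ^N × ℝ^M`) -/
structure AlmostProduct (s : ℕ) {N M n : ℕ} (e : (Euc N × Euc M) ≃ₗ[ℝ] Euc n) (K : Set (Euc n))
    (t : Euc M) : Prop where
  largest : ∀ t', volume (fibre e K t') ≤ volume (fibre e K t)
  vol : volume (base e K) * volume (fibre e K t) ≤ s * volume (e ⁻¹' K)

/-- `E_t ⟪x, θ⟫² ≤ q(t) E ⟪x, θ⟫²` for all `θ ∈ ℝ^N`, for a function `q ≥ 0` on `ℝ^M` with mean at most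
`Q`; here `E` is the mean over `K ⊂ ℝ^N × ℝ^M` and `E_t` the mean over the fibre over `t` -/
def AverageCovariance {N M n : ℕ} (Q : ℝ) (e : (Euc N × Euc M) ≃ₗ[ℝ] Euc n) (K : Set (Euc n)) :
    Prop :=
  ∃ q : Euc M → ℝ, Measurable q ∧ (∀ t, 0 ≤ q t) ∧
    Integrable (fun z => q (second e z)) (unif K) ∧ ∫ z, q (second e z) ∂(unif K) ≤ Q ∧
    ∀ t, volume (fibre e K t) ≠ 0 → ∀ θ : Euc N, ∫ x, ⟪x, θ⟫_ℝ ^ 2 ∂(unif (fibre e K t)) ≤
      q t * ∫ z, ⟪first e z, θ⟫_ℝ ^ 2 ∂(unif K)

/-- unconditional convex bodies `D ⊂ ℝ^b` -/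
structure Unconditional {b : ℕ} (D : Set (Euc b)) : Prop extends Body D where
  unc : ∀ t ∈ D, ∀ s : Euc b, (∀ i, |s i| ≤ |t i|) → s ∈ D

/-- polytopes (convex bodies) in `ℝ^m` which are intersections of at most `m + q` halfspaces or slabs
`{x | ⟪v_i, x⟫ ∈ I_i}`, `I_i` closed intervals (which may be unbounded) -/
structure FewSlabs (q : ℕ) {m : ℕ} (K : Set (Euc m)) : Prop where
  bdd : Bornology.IsBounded K
  int : (interior K).Nonempty
  rep : ∃ (N : ℕ) (v : Fin N → Euc m) (I : Fin N → Set ℝ), N ≤ m + q ∧ (∀ i, IsClosed (I i)) ∧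
    (∀ i, (I i).OrdConnected) ∧ K = {x | ∀ i, ⟪v i, x⟫_ℝ ∈ I i}

/-- configurations of `N` particles in `ℝ^d`: `x (i, α)` is the coordinate `α` of the particle `i` -/
abbrev Conf (N d : ℕ) : Type := EuclideanSpace ℝ (Fin N × Fin d)

/-- `K` does not change when the particles are permuted within their species; `b i` is the species of
the particle `i` -/
def PermInvariant {N d q : ℕ} (b : Fin N → Fin q) (K : Set (Conf N d)) : Prop :=
  ∀ σ : Equiv.Perm (Fin N), (∀ i, b (σ i) = b i) → ∀ x y : Conf N d,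
    (∀ i α, y (i, α) = x (σ i, α)) → x ∈ K → y ∈ K

/-- The `D`-sum `{x | x_i ∈ t_i K_i for all i, for some t ∈ D}` of the sets `K_i`; for symmetric convex
bodies `K_i` and unconditional `D` it is `{x | (‖x_i‖_{K_i})_i ∈ D}`. -/
def dSum {b : ℕ} {m : Fin b → ℕ} (D : Set (Euc b)) (K : ∀ i, Set (Euc (m i))) :
    Set (∀ i, Euc (m i)) := {x | ∃ t ∈ D, ∀ i, x i ∈ t i • K i}

/-- Bodies of depth 0: convex bodies whose uniform law satisfies `WeakPoincare A` (`base`), polytopes in
`ℝ^m` with at most `m + s` facets (`polytope`), and bodies of configurations of particles in `ℝ^d` which are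
invariant under the permutations of the particles within `q` species, `d, q ≤ s` (`particles`). -/
inductive Start (A : ℝ → ℝ) (s : ℕ) : ∀ n : ℕ, Set (Euc n) → Prop
  | base (n : ℕ) (K : Set (Euc n)) : Body K → WeakPoincare A (unif K) → Start A s n K
  | polytope (m : ℕ) (K : Set (Euc m)) : FewSlabs s K → Start A s m K
  | particles (N d q n : ℕ) (b : Fin N → Fin q) (e : Conf N d ≃ₗ[ℝ] Euc n) (K : Set (Conf N d)) :
      1 ≤ N → 1 ≤ d → d ≤ s → q ≤ s → Function.Surjective b → IsCompact K → Convex ℝ K →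
      (interior K).Nonempty → PermInvariant b K → Start A s n (e '' K)

/-- The new operations, applied to bodies of a class `𝒞`: almost products (`almost`), their bases
(`project`), bodies dominated by the law of a linear image (`dominated`), cuts (`cut`). -/
inductive New (ε : ℝ) (s : ℕ) (𝒞 : ∀ n : ℕ, Set (Euc n) → Prop) : ∀ n : ℕ, Set (Euc n) → Prop
  | almost (N M n : ℕ) (K : Set (Euc n)) (e : (Euc N × Euc M) ≃ₗ[ℝ] Euc n) (t : Euc M) :
      Body K → AlmostProduct s e K t → CentredFibres e K → 𝒞 N (fibre e K t) → 𝒞 M (base e K) →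
      New ε s 𝒞 n K
  | project (N M n : ℕ) (K : Set (Euc n)) (e : (Euc N × Euc M) ≃ₗ[ℝ] Euc n) (t : Euc M) :
      AlmostProduct s e K t → 𝒞 n K → New ε s 𝒞 M (base e K)
  | dominated (m n : ℕ) (K : Set (Euc m)) (P F : Set (Euc n)) (T : Euc m →ₗ[ℝ] Euc n)
      (c : Euc n) : Function.Surjective T → 𝒞 m K → Body P → MeasurableSet F →
      volume F ≤ ENNReal.ofReal ε * volume P →
      (volume P)⁻¹ • volume.restrict (P \ F) ≤
        (s : ℝ≥0∞) • Measure.map (fun x => c + T x) (unif K) → New ε s 𝒞 n P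
  | cut (N j n : ℕ) (K : Set (Euc n)) (e : (Euc N × Euc j) ≃ₗ[ℝ] Euc n) (t : Euc j)
      (Q : Set (Euc j)) : j ≤ s → Centre e K t → 𝒞 n K → t ∈ Q →
      Body {z | z ∈ K ∧ second e z ∈ Q} → New ε s 𝒞 n {z | z ∈ K ∧ second e z ∈ Q}

/-- Affine images with kernels of dimension at most `s` (`image`), adding at most `s` dimensions (`lift`),
large and central sections of codimension at most `s` (`large`, `central`), bodies with a large section
of codimension at most `s` (`extend`), for bodies of a class `𝒞`. -/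
inductive Linear (s : ℕ) (𝒞 : ∀ n : ℕ, Set (Euc n) → Prop) : ∀ n : ℕ, Set (Euc n) → Prop
  | image (m n : ℕ) (K : Set (Euc m)) (T : Euc m →ₗ[ℝ] Euc n) (w : Euc n) : m ≤ n + s →
      Function.Surjective T → 𝒞 m K → Linear s 𝒞 n ((fun x => w + T x) '' K)
  | lift (m n : ℕ) (K : Set (Euc m)) (T : Euc m →ₗ[ℝ] Euc n) : m ≤ n + s →
      Function.Surjective T → Body K → 𝒞 n (T '' K) → Linear s 𝒞 m K
  | large (N j n : ℕ) (K : Set (Euc n)) (e : (Euc N × Euc j) ≃ₗ[ℝ] Euc n) (t : Euc j) : j ≤ s →
      LargeFibre s e K t → 𝒞 n K → Linear s 𝒞 N (fibre e K t)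
  | extend (N j n : ℕ) (K : Set (Euc n)) (e : (Euc N × Euc j) ≃ₗ[ℝ] Euc n) (t : Euc j) : j ≤ s →
      Body K → LargeFibre s e K t → 𝒞 N (fibre e K t) → Linear s 𝒞 n K
  | central (N j n : ℕ) (K : Set (Euc n)) (e : (Euc N × Euc j) ≃ₗ[ℝ] Euc n) (t : Euc j) :
      j ≤ s → Centre e K t → 𝒞 n K → Linear s 𝒞 N (fibre e K t)

/-- Products of two bodies (`product`), `D`-sums of at most `s` symmetric bodies (`sum`), centred
fibrations whose fibres belong to `𝒞` and whose base has the law of a linear image of a body of `𝒞`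
(`fibration`), bodies `L` with `|(K + L) / 2|² ≤ s |K| |L|` (`deficit`), for bodies of a class `𝒞`. -/
inductive Sums (s : ℕ) (𝒞 : ∀ n : ℕ, Set (Euc n) → Prop) : ∀ n : ℕ, Set (Euc n) → Prop
  | product (a b n : ℕ) (e : (Euc a × Euc b) ≃ₗ[ℝ] Euc n) (K : Set (Euc a)) (L : Set (Euc b)) :
      𝒞 a K → 𝒞 b L → Sums s 𝒞 n (e '' (K ×ˢ L))
  | sum (b n : ℕ) (m : Fin b → ℕ) (e : (∀ i, Euc (m i)) ≃ₗ[ℝ] Euc n) (D : Set (Euc b))
      (K : ∀ i, Set (Euc (m i))) : b ≤ s → (∀ i, 1 ≤ m i) → Unconditional D →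
      (∀ i, ∀ x ∈ K i, -x ∈ K i) → (∀ i, 𝒞 (m i) (K i)) → Sums s 𝒞 n (e '' dSum D K)
  | fibration (N M n m : ℕ) (K : Set (Euc n)) (e : (Euc N × Euc M) ≃ₗ[ℝ] Euc n)
      (K' : Set (Euc m)) (L : Euc m →ₗ[ℝ] Euc M) : Body K →
      (∀ t, volume (fibre e K t) ≠ 0 → 𝒞 N (fibre e K t)) → CentredFibres e K →
      AverageCovariance s e K → 𝒞 m K' →
      Measure.map (second e) (unif K) = Measure.map L (unif K') → Sums s 𝒞 n K
  | deficit (n : ℕ) (K L : Set (Euc n)) : 𝒞 n K → Body L →
      volume ((1 / 2 : ℝ) • (K + L)) ^ 2 ≤ s * (volume K * volume L) → Sums s 𝒞 n L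

/-- one operation (or none) -/
def Step (ε : ℝ) (s : ℕ) (𝒞 : ∀ n : ℕ, Set (Euc n) → Prop) : ∀ n : ℕ, Set (Euc n) → Prop :=
  fun n K => 𝒞 n K ∨ New ε s 𝒞 n K ∨ Linear s 𝒞 n K ∨ Sums s 𝒞 n K

/-- The class of bodies, see the text above: `Derived A ε s h` consists of the bodies which are obtained
from the bodies of `Start A s` by at most `h` successive operations. -/
def Derived (A : ℝ → ℝ) (ε : ℝ) (s h : ℕ) : ∀ n : ℕ, Set (Euc n) → Prop :=
  (Step ε s)^[h] (Start A s)

/-- the Lebesgue measure of a Euclidean space -/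
noncomputable def lebesgue (F : Type) [NormedAddCommGroup F] [InnerProductSpace ℝ F]
    [FiniteDimensional ℝ F] [MeasurableSpace F] [BorelSpace F] : Measure F := volume

/-- the Lebesgue measure (of the Euclidean space `W`) of the section `Ω ∩ W` by a subspace `W` -/
noncomputable def areaIn {F : Type} [NormedAddCommGroup F] [InnerProductSpace ℝ F]
    [FiniteDimensional ℝ F] [MeasurableSpace F] [BorelSpace F] (W : Submodule ℝ F) (Ω : Set F) :
    ℝ≥0∞ := lebesgue W {y : W | (y : F) ∈ Ω}

section defs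

variable {κ : Type} [Fintype κ]

open Classical in
/-- divergence of a vector field on `ℝ^κ` -/
noncomputable def divergence (X : EuclideanSpace ℝ κ → EuclideanSpace ℝ κ)
    (x : EuclideanSpace ℝ κ) : ℝ :=
  ∑ i, fderiv ℝ X x (EuclideanSpace.single i 1) i

/-- `C¹` vector fields with compact support in `Ω` and `‖X‖ ≤ 1` -/
structure Test (Ω : Set (EuclideanSpace ℝ κ)) (X : EuclideanSpace ℝ κ → EuclideanSpace ℝ κ) :
    Prop where
  diff : ContDiff ℝ 1 X
  comp : HasCompactSupport X
  sub : tsupport X ⊆ Ω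
  le : ∀ x, ‖X x‖ ≤ 1

/-- the (De Giorgi) perimeter `P(E; Ω)` of `E` relative to the open set `Ω` -/
noncomputable def perimeter (E Ω : Set (EuclideanSpace ℝ κ)) : ℝ≥0∞ :=
  ⨆ (X : EuclideanSpace ℝ κ → EuclideanSpace ℝ κ) (_ : Test Ω X),
    ENNReal.ofReal (∫ x in E, divergence X x)

/-- the area (Lebesgue measure in the hyperplane `a^⊥`) of the central section of `Ω` by `a^⊥` -/
noncomputable def sectionArea (Ω : Set (EuclideanSpace ℝ κ)) (a : EuclideanSpace ℝ κ) : ℝ≥0∞ :=
  areaIn (Submodule.span ℝ {a})ᗮ Ω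

/-- some central hyperplane section has area at most `C P(E; Ω)` for every measurable `E ⊆ Ω` with
`|E| = |Ω| / 2` -/
def HyperplaneBound (C : ℝ) (Ω : Set (EuclideanSpace ℝ κ)) : Prop :=
  ∃ a : EuclideanSpace ℝ κ, a ≠ 0 ∧ ∀ E : Set (EuclideanSpace ℝ κ), MeasurableSet E → E ⊆ Ω →
    volume E = volume Ω / 2 → sectionArea Ω a ≤ ENNReal.ofReal C * perimeter E Ω

/-- the perimeter is the one used in the proof -/
theorem perimeter_eq (E Ω : Set (EuclideanSpace ℝ κ)) :
    Pool.Agent.W695.KH.per E Ω = perimeter E Ω := by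
  unfold perimeter Pool.Agent.W695.KH.per
  refine iSup_congr fun X => ?_
  refine iSup_congr_Prop ⟨fun h => ⟨h.1, h.2.1, h.2.2.1, h.2.2.2⟩,
    fun h => ⟨h.diff, h.comp, h.sub, h.le⟩⟩ fun _ => rfl

end defs

theorem unif_prob {n : ℕ} {K : Set (Euc n)} (h1 : IsCompact K) (h3 : (interior K).Nonempty) :
    IsProbabilityMeasure (unif K) :=
  Pool.Agent.R754.KG.un_prob (Pool.Agent.R755.KF.vol_ne h3) h1.measure_lt_top.ne

/-- from the functional inequality to central sections -/
theorem hyper_of : ∀ c : ℝ, 0 < c → ∃ C : ℝ, 0 < C ∧ ∀ (n : ℕ) (P : Set (Euc n)), 1 ≤ n →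
    IsCompact P → Convex ℝ P → (interior P).Nonempty →
    Pool.Agent.Y506.RG.Star c (Pool.Agent.Y506.PV.ind P) → (∀ x ∈ P, -x ∈ P) →
    HyperplaneBound C (interior P) := by
  intro c hc
  obtain ⟨C, hC, H'⟩ := Pool.Agent.Y151.PV.hyp
  refine ⟨C * c, by positivity, fun n P hn h1 h2 h3 h4 hs => ?_⟩
  have hcl : closure (interior P) = P := by
    rw [h2.closure_interior_eq_closure_of_nonempty_interior h3, h1.isClosed.closure_eq]
  have hsi : ∀ x ∈ interior P, -x ∈ interior P := by
    intro x hx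
    have hop : IsOpen ((fun y => -y) ⁻¹' interior P) := isOpen_interior.preimage continuous_neg
    have hsub : (fun y => -y) ⁻¹' interior P ⊆ P := by
      intro y hy
      have := hs _ (interior_subset hy)
      rwa [neg_neg] at this
    exact interior_maximal hsub hop (by simpa using hx)
  have h0 : (0 : Euc n) ∈ interior P := by
    obtain ⟨x, hx⟩ := h3
    have h := h2.interior hx (hsi x hx) (by norm_num : (0 : ℝ) ≤ 1 / 2)
      (by norm_num : (0 : ℝ) ≤ 1 / 2) (by norm_num)
    rwa [smul_neg, add_neg_cancel] at h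
  obtain ⟨a, ha, h⟩ := H' n hn (interior P) isOpen_interior h2.interior
    (h1.isBounded.subset interior_subset) h0 hsi c hc (by rw [hcl]; exact h4)
  refine ⟨a, ha, fun E hE hEΩ hvol => ?_⟩
  rw [← perimeter_eq]
  by_cases hp : Pool.Agent.W695.KH.per E (interior P) = ⊤
  · rw [hp, ENNReal.mul_top (ENNReal.ofReal_pos.2 (by positivity)).ne']
    exact le_top
  · refine (h E hE hEΩ hvol _ (Pool.Agent.W695.KH.perLe_toReal E _ hp)).trans (le_of_eq ?_)
    rw [ENNReal.ofReal_mul (by positivity), ENNReal.ofReal_toReal hp]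

open Pool.Agent.H59.KJ in
theorem base_eq {N M n : ℕ} (e : (Euc N × Euc M) ≃ₗ[ℝ] Euc n) (K : Set (Euc n)) :
    base e K = Prod.snd '' (e ⁻¹' K) := by
  ext t
  constructor
  · rintro ⟨x, hx⟩
    exact ⟨(x, t), hx, rfl⟩
  · rintro ⟨⟨x, u⟩, hx, rfl⟩
    exact ⟨x, hx⟩

open Pool.Agent.H59.KJ in
theorem ap_of {s N M n : ℕ} {e : (Euc N × Euc M) ≃ₗ[ℝ] Euc n} {K : Set (Euc n)} {t : Euc M}
    (hK : Pool.Agent.R755.KF.CB (e ⁻¹' K)) (h : AlmostProduct s e K t) :
    AP ((s : ℝ) + 1) (e ⁻¹' K) t := by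
  have hf := Pool.Agent.R755.KF.Maux.sl_fin hK
  have hV : volume (e ⁻¹' K) ≠ ⊤ := hK.comp.measure_lt_top.ne
  refine ⟨fun t' => ENNReal.toReal_mono (hf t) (h.largest t'), ?_⟩
  have h1 := h.vol
  rw [base_eq] at h1
  have h2 := ENNReal.toReal_mono (ENNReal.mul_ne_top (ENNReal.natCast_ne_top s) hV) h1
  rw [ENNReal.toReal_mul, ENNReal.toReal_mul, ENNReal.toReal_natCast] at h2
  have h3 : 0 ≤ (volume (e ⁻¹' K)).toReal := ENNReal.toReal_nonneg
  have h4 : (volume (Prod.snd '' (e ⁻¹' K))).toReal * Pool.Agent.R754.KG.Rv (e ⁻¹' K) t ≤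
      s * (volume (e ⁻¹' K)).toReal := h2
  nlinarith

open Pool.Agent.H59.KJ in
/-- all bodies of the class have concentration -/
theorem gd_of : ∃ ε : ℝ, 0 < ε ∧ ∀ (A : ℝ → ℝ) (s h : ℕ), ∃ κ : ℝ, 0 < κ ∧ ∀ (n : ℕ)
    (K : Set (Euc n)), Derived A ε s h n K → Gd κ K := by
  obtain ⟨ε, hε, -, HD⟩ := op_dom
  refine ⟨ε, hε, fun A s h => ?_⟩
  have hs1 : (1 : ℝ) ≤ (s : ℝ) + 1 := by
    have : (0 : ℝ) ≤ s := Nat.cast_nonneg s
    linarith
  have hs0 : (0 : ℝ) < (s : ℝ) + 1 := by linarith
  have hs2 : (0 : ℝ) < 1 / ((s : ℝ) + 1) := by positivity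
  induction h with
  | zero =>
    obtain ⟨κ1, hκ1, H1⟩ := gd_of_km A
    obtain ⟨κ2, hκ2, H2⟩ := gd_poly s
    obtain ⟨κ3, hκ3, H3⟩ := gd_par (Pool.Agent.R751.MB.par Pool.Agent.R751.MB.wht
      Pool.Agent.R751.MB.gen) s
    refine ⟨min κ1 (min κ2 κ3), lt_min hκ1 (lt_min hκ2 hκ3), fun n K hK => ?_⟩
    have hK' : Start A s n K := hK
    cases hK' with
    | base _ _ h1 h2 =>
      have hp := unif_prob h1.comp h1.int
      obtain ⟨B, hB⟩ := Pool.Agent.R755.KS.un_bdd h1.comp
      exact (H1 n K h1.comp h1.conv h1.int (km_of_wpf (μ := unif _) hB h2)).mono (min_le_left _ _)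
    | polytope _ _ h1 =>
      obtain ⟨N, v, I, hN, hI1, hI2, hK'⟩ := h1.rep
      exact (H2 n K h1.bdd h1.int ⟨N, hN, v, I, hI1, hI2, hK'⟩).mono
        ((min_le_right _ _).trans (min_le_left _ _))
    | particles _ _ _ _ b e _ hN hd hds hqs hb k1 k2 k3 hinv =>
      exact (H3 _ _ _ _ b e _ hN hd hds hqs hb k1 k2 k3 hinv).mono
        ((min_le_right _ _).trans (min_le_right _ _))
  | succ h ih =>
    obtain ⟨κ0, h0, IH⟩ := ih
    obtain ⟨κ1, p1, H1⟩ := op_image s h0
    obtain ⟨κ2, p2, H2⟩ := op_lift s h0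
    obtain ⟨κ3, p3, H3⟩ := op_sec s hs2 h0
    obtain ⟨κ4, p4, H4⟩ := op_ext s hs2 h0
    obtain ⟨κ5, p5, H5⟩ := op_bar s h0
    obtain ⟨κ6, p6, H6⟩ := op_prod h0
    obtain ⟨κ7, p7, H7⟩ := op_sum s h0
    obtain ⟨κ8, p8, H8⟩ := op_cent' (Q := (s : ℝ) + 1) hs0 h0
    obtain ⟨κ9, p9, H9⟩ := op_def hs0 h0
    obtain ⟨κa, pa, Ha⟩ := HD ((s : ℝ) + 1) κ0 hs1 h0
    obtain ⟨κb, pb, Hb⟩ := op_alm hs1 h0
    obtain ⟨κc, pc, Hc⟩ := op_base hs1 h0
    obtain ⟨κd, pd, Hd⟩ := op_cut s h0
    obtain ⟨κ, hκ, q0, q1, q2, q3, q4, q5, q6, q7, q8, q9, qa, qb, qc, qd⟩ : ∃ κ : ℝ, 0 < κ ∧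
        κ ≤ κ0 ∧ κ ≤ κ1 ∧ κ ≤ κ2 ∧ κ ≤ κ3 ∧ κ ≤ κ4 ∧ κ ≤ κ5 ∧ κ ≤ κ6 ∧ κ ≤ κ7 ∧ κ ≤ κ8 ∧ κ ≤ κ9 ∧
        κ ≤ κa ∧ κ ≤ κb ∧ κ ≤ κc ∧ κ ≤ κd := by
      refine ⟨min κ0 (min κ1 (min κ2 (min κ3 (min κ4 (min κ5 (min κ6 (min κ7 (min κ8 (min κ9
        (min κa (min κb (min κc κd)))))))))))), by simp only [lt_min_iff]; tauto, ?_⟩
      refine ⟨?_, ?_, ?_, ?_, ?_, ?_, ?_, ?_, ?_, ?_, ?_, ?_, ?_, ?_⟩ <;> simp
    refine ⟨κ, hκ, fun n K hK => ?_⟩
    have hK' : Step ε s (Derived A ε s h) n K := by
      have e : Derived A ε s (h + 1) = Step ε s (Derived A ε s h) :=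
        Function.iterate_succ_apply' _ _ _
      rw [← e]
      exact hK
    rcases hK' with h1 | h1 | h1 | h1
    · exact (IH _ _ h1).mono q0
    · cases h1 with
      | almost _ _ _ _ e t hK hA hc h1 h2 =>
        have hcb := Pool.Agent.R755.KS.cb_pre e hK.comp hK.conv hK.int
        have hg := IH _ _ h2
        rw [base_eq] at hg
        exact (Hb _ _ _ _ e t hK.comp hK.conv hK.int (ap_of hcb hA) (fun t ht => hc t ht)
          (IH _ _ h1) hg).mono qb
      | project _ _ _ _ e t hA h1 =>
        have hg := IH _ _ h1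
        have hcb := Pool.Agent.R755.KS.cb_pre e hg.comp hg.conv hg.int
        rw [base_eq]
        exact (Hc _ _ _ _ e t hg (ap_of hcb hA)).mono qc
      | dominated _ _ _ _ F T c hT h1 hP hF hFv hd =>
        refine (Ha _ _ _ _ F T c hT (IH _ _ h1) hP.comp hP.conv hP.int hF hFv (hd.trans ?_)).mono qa
        rw [← ENNReal.ofReal_natCast s]
        refine Measure.le_iff.2 fun S _ => ?_
        rw [Measure.smul_apply, Measure.smul_apply, smul_eq_mul, smul_eq_mul]
        exact mul_le_mul_left (ENNReal.ofReal_le_ofReal (by linarith)) _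
      | cut _ _ _ _ e t Q hj ht h1 htQ hb =>
        have hg := IH _ _ h1
        exact (Hd _ _ _ _ e t Q hj (bar_of e (Pool.Agent.R755.KS.cb_pre e hg.comp hg.conv hg.int) ht)
          hg htQ hb.comp hb.conv hb.int).mono qd
    · cases h1 with
      | image _ _ _ T w hm hT h1 => exact (H1 _ _ _ T w hm hT (IH _ _ h1)).mono q1
      | lift _ _ _ T hm hT hK h1 =>
        exact (H2 _ _ _ T hm hT hK.comp hK.conv hK.int (IH _ _ h1)).mono q2
      | large _ _ _ _ e t hj ht h1 =>
        have hg := IH _ _ h1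
        exact (H3 _ _ _ _ e t hj (large_of (Pool.Agent.R755.KS.cb_pre e hg.comp hg.conv hg.int) ht)
          hg).mono q3
      | extend _ _ _ _ e t hj hK ht h1 =>
        exact (H4 _ _ _ _ e t hj hK.comp hK.conv hK.int
          (large_of (Pool.Agent.R755.KS.cb_pre e hK.comp hK.conv hK.int) ht) (IH _ _ h1)).mono q4
      | central _ _ _ _ e t hj ht h1 =>
        have hg := IH _ _ h1
        exact (H5 _ _ _ _ e t hj (bar_of e (Pool.Agent.R755.KS.cb_pre e hg.comp hg.conv hg.int) ht)
          hg).mono q5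
    · cases h1 with
      | product _ _ _ e _ _ h1 h2 => exact (H6 _ _ _ e _ _ (IH _ _ h1) (IH _ _ h2)).mono q6
      | sum _ _ _ e _ _ hb hm hD hs h1 =>
        exact (H7 _ _ _ e _ _ hb hm ⟨⟨hD.comp, hD.conv, hD.int⟩, hD.unc⟩ hs
          fun i => IH _ _ (h1 i)).mono q7
      | fibration _ _ _ _ _ e _ L hK hf hc hq h1 hb =>
        have hcb := Pool.Agent.R755.KS.cb_pre e hK.comp hK.conv hK.int
        have hq2 : Pool.Agent.R755.KS.AC s e _ := hq
        obtain ⟨q, hq3⟩ := (Pool.Agent.R755.KS.ac_iff (s : ℝ) e _ hcb).1 hq2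
        refine (H8 _ _ _ _ _ e _ L hK.comp hK.conv hK.int (fun t ht => IH _ _ (hf t ht))
          (fun t ht => hc t ht)
          ⟨q, ⟨hq3.meas, hq3.nn, hq3.int, hq3.le.trans (by linarith), hq3.cov⟩⟩
          (IH _ _ h1) ?_).mono q8
        rw [← Pool.Agent.R755.KS.law_eq e hcb]
        exact hb
      | deficit _ _ _ h1 hL hd =>
        refine (H9 _ _ _ (IH _ _ h1) hL.comp hL.conv hL.int (hd.trans ?_)).mono q9
        gcongr
        rw [← ENNReal.ofReal_natCast s, ← ENNReal.ofReal_pow hs0.le]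
        refine ENNReal.ofReal_le_ofReal ?_
        nlinarith

/-- **The hyperplane conjecture for almost products, and for all operations together.** There is
`ε > 0` such that for all functions `A : ℝ → ℝ` and all `s`, `h` there are a function `A'` and a constant
`C > 0` such that all bodies `K` of the class `Derived A ε s h` are convex bodies which satisfy
`WeakPoincare A'`, and if `K ⊂ ℝⁿ`, `n ≥ 1`, is symmetric then its interior `Ω` has a central hyperplane
section `Ω ∩ a^⊥` with `H_{n-1}(Ω ∩ a^⊥) ≤ C P(E; Ω)` for every measurable `E ⊆ Ω` with `|E| = |Ω| / 2`. -/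
theorem result : ∃ ε : ℝ, 0 < ε ∧ ∀ (A : ℝ → ℝ) (s h : ℕ), ∃ (A' : ℝ → ℝ) (C : ℝ), 0 < C ∧
    ∀ (n : ℕ) (K : Set (Euc n)), Derived A ε s h n K → Body K ∧ WeakPoincare A' (unif K) ∧
    (1 ≤ n → (∀ x ∈ K, -x ∈ K) → HyperplaneBound C (interior K)) := by
  obtain ⟨ε, hε, H⟩ := gd_of
  refine ⟨ε, hε, fun A s h => ?_⟩
  obtain ⟨κ, hκ, H1⟩ := H A s h
  obtain ⟨A', -, H2⟩ := Pool.Agent.H59.KJ.km_of_gd hκ
  obtain ⟨c, hc, H3⟩ := Pool.Agent.H59.KJ.star_of hκ
  obtain ⟨C, hC, H4⟩ := hyper_of c hc
  refine ⟨A', C, hC, fun n K hK => ?_⟩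
  have hg := H1 n K hK
  have hp := unif_prob hg.comp hg.int
  obtain ⟨B, hB⟩ := Pool.Agent.R755.KS.un_bdd hg.comp
  exact ⟨⟨hg.comp, hg.conv, hg.int⟩,
    Pool.Agent.H59.KJ.wpf_of_km (μ := unif K) hB (H2 n K hg),
    fun hn hs => H4 n K hn hg.comp hg.conv hg.int (H3 n K hg) hs⟩

end Pool.Agent.Results.MP_dc1397_gt.AlmostProducts
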