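import Pool.Agent.H59.SC.Lay

/-!
# The hyperplane conjecture of KLS for bodies with a curved layer

Let `K ⊂ ℝⁿ` be a convex body, `V : K → ℝ` a continuous convex function and `a` a real number such that

* `a - s ≤ V ≤ a` on at least the proportion `p` of the volume of `K`, and
* `V` is curved in the layer `{a - M ≤ V ≤ a}`: `V ((x + y) / 2) ≤ (V(x) + V(y)) / 2 - 1` for all points `x`, `y` of the
  layer whose distance in the metric of the covariance matrix of `K` is at least `s`.

Nothing else is assumed: `V` may be flat (affine, constant) elsewhere, `K` may contain a large part in which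
`V > a`, and the position and the shape of this part and of the boundary of `K` are arbitrary; `V` need not
be smooth or symmetric, and `K` is not related to the level sets of `V`. The number `M` depends on `s` and `p`
only. Then the uniform law of `K` satisfies weak Poincare inequalities `Var v ≤ δ + A(δ) σ E ‖∇ v‖²` for all
linear images with variances at most `σ`, all `δ > 0` and all `|v| ≤ 1`, where `A` depends on `s` and `p`
only, and if `K` is symmetric then Q1 holds for the interior of `K`, with a constant which depends on `s`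
and `p` only. The same is true for all linear images of `K` of the same dimension (the hypothesis does
not change), and for all bodies which are obtained from such bodies by the operations of
`AlmostProducts`, because these bodies satisfy the hypothesis `WeakPoincare A` of the bodies of depth 0 there
(sections, images, sums, almost products, ...; for instance it is enough that `V` is curved on a large
section of `K` of bounded codimension).

Let `K` be in isotropic position, that is, with covariance matrix `1`. Then the metric is `|x - y|`, and the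
hypothesis says that the fluctuations of `V` on a part of `K` are at most of the order of its gain of
convexity at distances of order `1`. Examples: the functions `V` with `V'' ≥ 1` and variance `O(1)` (for
`V = |x|² / 2` see Bobkov, On isoperimetric constants for log-concave probability distributions, 2007);
`V = n ‖x‖²_K` if `K` is uniformly convex and near to isotropic position; `V(x)` the maximum of `|x - c|² / 2` over
the centres `c` of the balls of radius `R = O(√n)` which contain `K`, if the proportion `p` of the volume of `K`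
is near to the spheres of such balls (`SmallFluctuations`, where explicit constants are obtained for
functions which are curved on the whole body).

Method. (1) `K' = {V ≤ a}` is convex, `h = a - V ≥ 0` is concave on `K'`, and `|{h ≥ u}| ≤ e exp (-p u / (2 s)) |K'|` by the
Prekopa-Leindler inequality, so `∫ exp (l h) ≤ (1 + e) |K'|` over `K'` for `l = p / (4 s)`, and `h ≤ u` holds
on a part `S` of `K'` of proportion `1 - η`. (2) For `x, y ∈ S` at distance at least `2^k s`, where `2^k ≥ G`, the
gain `h ((x + y) / 2) - (h(x) + h(y)) / 2` is at least `G` if `M = u + 2 G`: either the dyadic points of the segment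
`[x, y]` are in the layer `{h ≤ M}`, and then the gain is doubled `k` times, or `h` is larger than `M` at some point
of the segment, and then the gain is at least `(M - u) / 2` by concavity. (3) The Prekopa-Leindler
inequality for `1_S exp (σ f + l h)`, `1_S exp (-σ f + l h)` and `exp (1 / 2 + l h)`, where `|f| ≤ 1`, `f` varies by at
most `1 / σ` at distances below `2^k s`, and `σ ≤ l G`, gives `∫ exp (σ f) ∫ exp (-σ f) ≤ e ((1 + e) |K'|)²` over `S`,
hence `Var f ≤ 704 / σ²` on `S`. So functions with `|f| ≤ 1` and a small Lipschitz constant for the metric of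
the covariance matrix have arbitrarily small variance on `K'`. (4) This is the concentration of all
linear images of the law of `K'` at one level (covariances of `K'` and of `K` are comparable). It passes
from `K'` to `K` by `BrunnMinkowskiDeficit` (`|(K + K') / 2| ≤ |K|`; for Poincare inequalities
this is the stability theorem of E. Milman 2009), which also gives the other levels (`KJ.Ops`).
(5) The passage to weak Poincare inequalities and to hyperplane sections is that of the library.

The modules `Pool.Agent.H59.L` are copies of modules of the library (see the files there for the authors).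
-/

set_option autoImplicit false

namespace Pool.Agent.Results.MP_dc1397_gt.CurvedLayers

open MeasureTheory Set
open scoped ENNReal InnerProductSpace Pointwise

/-- Euclidean space of dimension `n` -/
abbrev Euc (n : ℕ) : Type := EuclideanSpace ℝ (Fin n)

/-- the uniform probability measure on `K` -/
noncomputable def unif {n : ℕ} (K : Set (Euc n)) : Measure (Euc n) :=
  (volume K)⁻¹ • volume.restrict K

/-- The inequalities `Var v(P x) ≤ δ + A(δ) σ E ‖∇ v(P x)‖²` for all `δ > 0`, all linear images `P x` of
`x` (of law `μ`), all bounds `σ` for the variances of the marginals of `P x` in directions of length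
one, and all `C¹` functions `v` with `|v| ≤ 1` and bounded gradient. They follow, with
`A(δ) = c₀ / (4 δ)`, from the Poincare inequality with constant `c₀` for `μ` in isotropic position. -/
def WeakPoincare (A : ℝ → ℝ) {M : ℕ} (μ : Measure (Euc M)) : Prop :=
  ∀ δ : ℝ, 0 < δ → ∀ (k : ℕ) (P : Euc M →ₗ[ℝ] Euc k) (σ : ℝ), 0 < σ →
  (∀ θ : Euc k, ‖θ‖ = 1 → ProbabilityTheory.variance (fun x => ⟪P x, θ⟫_ℝ) μ ≤ σ) →
  ∀ (v : Euc k → ℝ) (C : ℝ), ContDiff ℝ 1 v → (∀ y, |v y| ≤ 1) → (∀ y, ‖fderiv ℝ v y‖ ≤ C) →
  ProbabilityTheory.variance (fun x => v (P x)) μ ≤ δ + A δ * σ * ∫ x, ‖fderiv ℝ v (P x)‖ ^ 2 ∂μ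

/-- `V` is a continuous convex function on the convex body `K`, `a - s ≤ V ≤ a` on at least the proportion `p`
of the volume of `K`, and `V ((x + y) / 2) ≤ (V x + V y) / 2 - 1` for all points `x`, `y` of the layer
`{a - M ≤ V ≤ a}` of `K` whose distance in the metric of the covariance matrix of `K` is at least `s` (that
is, `⟪x - y, θ⟫ ≥ s` for some `θ` with `Var ⟪z, θ⟫ ≤ 1`) -/
structure CurvedLayer {n : ℕ} (K : Set (Euc n)) (V : Euc n → ℝ) (a s p M : ℝ) : Prop where
  comp : IsCompact K
  int : (interior K).Nonempty
  cont : ContinuousOn V K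
  conv : ConvexOn ℝ K V
  near : ENNReal.ofReal p ≤ unif K {x | a - s ≤ V x ∧ V x ≤ a}
  gain : ∀ x ∈ K, ∀ y ∈ K, a - M ≤ V x → V x ≤ a → a - M ≤ V y → V y ≤ a → ∀ θ : Euc n,
    ProbabilityTheory.variance (fun z => ⟪z, θ⟫_ℝ) (unif K) ≤ 1 → s ≤ ⟪x - y, θ⟫_ℝ →
    V ((1 / 2 : ℝ) • (x + y)) + 1 ≤ (V x + V y) / 2

/-- the Lebesgue measure of a Euclidean space -/
noncomputable def lebesgue (F : Type) [NormedAddCommGroup F] [InnerProductSpace ℝ F]
    [FiniteDimensional ℝ F] [MeasurableSpace F] [BorelSpace F] : Measure F := volume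

/-- the Lebesgue measure (of the Euclidean space `W`) of the section `Ω ∩ W` by a subspace `W` -/
noncomputable def areaIn {F : Type} [NormedAddCommGroup F] [InnerProductSpace ℝ F]
    [FiniteDimensional ℝ F] [MeasurableSpace F] [BorelSpace F] (W : Submodule ℝ F) (Ω : Set F) :
    ℝ≥0∞ := lebesgue W {y : W | (y : F) ∈ Ω}

section defs

variable {κ : Type} [Fintype κ]

open Classical in
/-- divergence of a vector field on `ℝ^κ` -/
noncomputable def divergence (X : EuclideanSpace ℝ κ → EuclideanSpace ℝ κ)
    (x : EuclideanSpace ℝ κ) : ℝ :=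
  ∑ i, fderiv ℝ X x (EuclideanSpace.single i 1) i

/-- `C¹` vector fields with compact support in `Ω` and `‖X‖ ≤ 1` -/
structure Test (Ω : Set (EuclideanSpace ℝ κ)) (X : EuclideanSpace ℝ κ → EuclideanSpace ℝ κ) :
    Prop where
  diff : ContDiff ℝ 1 X
  comp : HasCompactSupport X
  sub : tsupport X ⊆ Ω
  le : ∀ x, ‖X x‖ ≤ 1

/-- the (De Giorgi) perimeter `P(E; Ω)` of `E` relative to the open set `Ω` -/
noncomputable def perimeter (E Ω : Set (EuclideanSpace ℝ κ)) : ℝ≥0∞ :=
  ⨆ (X : EuclideanSpace ℝ κ → EuclideanSpace ℝ κ) (_ : Test Ω X),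
    ENNReal.ofReal (∫ x in E, divergence X x)

/-- the area (Lebesgue measure in the hyperplane `a^⊥`) of the central section of `Ω` by `a^⊥` -/
noncomputable def sectionArea (Ω : Set (EuclideanSpace ℝ κ)) (a : EuclideanSpace ℝ κ) : ℝ≥0∞ :=
  areaIn (Submodule.span ℝ {a})ᗮ Ω

/-- some central hyperplane section has area at most `C P(E; Ω)` for every measurable `E ⊆ Ω` with
`|E| = |Ω| / 2` -/
def HyperplaneBound (C : ℝ) (Ω : Set (EuclideanSpace ℝ κ)) : Prop :=
  ∃ a : EuclideanSpace ℝ κ, a ≠ 0 ∧ ∀ E : Set (EuclideanSpace ℝ κ), MeasurableSet E → E ⊆ Ω →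
    volume E = volume Ω / 2 → sectionArea Ω a ≤ ENNReal.ofReal C * perimeter E Ω

/-- the perimeter is the one used in the proof -/
theorem perimeter_eq (E Ω : Set (EuclideanSpace ℝ κ)) :
    Pool.Agent.W695.KH.per E Ω = perimeter E Ω := by
  unfold perimeter Pool.Agent.W695.KH.per
  refine iSup_congr fun X => ?_
  refine iSup_congr_Prop ⟨fun h => ⟨h.1, h.2.1, h.2.2.1, h.2.2.2⟩,
    fun h => ⟨h.diff, h.comp, h.sub, h.le⟩⟩ fun _ => rfl

end defs

/-- from the functional inequality to central sections -/
theorem hyper_of : ∀ c : ℝ, 0 < c → ∃ C : ℝ, 0 < C ∧ ∀ (n : ℕ) (P : Set (Euc n)), 1 ≤ n →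
    IsCompact P → Convex ℝ P → (interior P).Nonempty →
    Pool.Agent.Y506.RG.Star c (Pool.Agent.Y506.PV.ind P) → (∀ x ∈ P, -x ∈ P) →
    HyperplaneBound C (interior P) := by
  intro c hc
  obtain ⟨C, hC, H'⟩ := Pool.Agent.Y151.PV.hyp
  refine ⟨C * c, by positivity, fun n P hn h1 h2 h3 h4 hs => ?_⟩
  have hcl : closure (interior P) = P := by
    rw [h2.closure_interior_eq_closure_of_nonempty_interior h3, h1.isClosed.closure_eq]
  have hsi : ∀ x ∈ interior P, -x ∈ interior P := by
    intro x hx
    have hop : IsOpen ((fun y => -y) ⁻¹' interior P) := isOpen_interior.preimage continuous_neg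
    have hsub : (fun y => -y) ⁻¹' interior P ⊆ P := by
      intro y hy
      have := hs _ (interior_subset hy)
      rwa [neg_neg] at this
    exact interior_maximal hsub hop (by simpa using hx)
  have h0 : (0 : Euc n) ∈ interior P := by
    obtain ⟨x, hx⟩ := h3
    have h := h2.interior hx (hsi x hx) (by norm_num : (0 : ℝ) ≤ 1 / 2)
      (by norm_num : (0 : ℝ) ≤ 1 / 2) (by norm_num)
    rwa [smul_neg, add_neg_cancel] at h
  obtain ⟨a, ha, h⟩ := H' n hn (interior P) isOpen_interior h2.interior
    (h1.isBounded.subset interior_subset) h0 hsi c hc (by rw [hcl]; exact h4)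
  refine ⟨a, ha, fun E hE hEΩ hvol => ?_⟩
  rw [← perimeter_eq]
  by_cases hp : Pool.Agent.W695.KH.per E (interior P) = ⊤
  · rw [hp, ENNReal.mul_top (ENNReal.ofReal_pos.2 (by positivity)).ne']
    exact le_top
  · refine (h E hE hEΩ hvol _ (Pool.Agent.W695.KH.perLe_toReal E _ hp)).trans (le_of_eq ?_)
    rw [ENNReal.ofReal_mul (by positivity), ENNReal.ofReal_toReal hp]

theorem mul_unif' {n : ℕ} {K : Set (Euc n)} (h0 : volume K ≠ 0) (hK : IsCompact K)
    (S : Set (Euc n)) : volume K * unif K S = volume (K ∩ S) := by
  unfold unif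
  rw [Measure.smul_apply, Measure.restrict_apply' hK.measurableSet, smul_eq_mul, ← mul_assoc,
    ENNReal.mul_inv_cancel h0 hK.measure_lt_top.ne, one_mul, inter_comm]

/-- **Bodies with a curved layer.** For all `s, p > 0` there are `M`, a function `A : ℝ → ℝ` and a constant `C > 0`
such that all convex bodies `K ⊂ ℝⁿ` with a continuous convex function `V` and a number `a` as in
`CurvedLayer K V a s p M` satisfy `WeakPoincare A`, and if `K` is symmetric and `n ≥ 1` then the interior `Ω` of `K` has
a central hyperplane section `Ω ∩ b^⊥` with `H_{n-1}(Ω ∩ b^⊥) ≤ C P(E; Ω)` for every measurable `E ⊆ Ω` with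
`|E| = |Ω| / 2`. -/
theorem result : ∀ s p : ℝ, 0 < s → 0 < p → ∃ (M : ℝ) (A : ℝ → ℝ) (C : ℝ), 0 < C ∧
    ∀ (n : ℕ) (K : Set (Euc n)) (V : Euc n → ℝ) (a : ℝ), CurvedLayer K V a s p M →
    WeakPoincare A (unif K) ∧ (1 ≤ n → (∀ x ∈ K, -x ∈ K) → HyperplaneBound C (interior K)) := by
  intro s p hs hp
  obtain ⟨M, k, hk, H⟩ := Pool.Agent.H59.SC.gd_lay hs hp
  obtain ⟨A, -, H2⟩ := Pool.Agent.H59.KJ.km_of_gd hk
  obtain ⟨c, hc, H3⟩ := Pool.Agent.H59.KJ.star_of hk
  obtain ⟨C, hC, H4⟩ := hyper_of c hc
  refine ⟨M, A, C, hC, fun n K V a h => ?_⟩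
  have h0 : volume K ≠ 0 := Pool.Agent.R755.KF.vol_ne h.int
  have hg := H n K h.comp h.conv.1 h.int V a h.cont h.conv (by
    rw [← mul_unif' h0 h.comp, mul_comm]
    exact mul_le_mul_right h.near _) h.gain
  have hp : IsProbabilityMeasure (unif K) :=
    Pool.Agent.R754.KG.un_prob h0 h.comp.measure_lt_top.ne
  obtain ⟨B, hB⟩ := Pool.Agent.R755.KS.un_bdd h.comp
  exact ⟨Pool.Agent.H59.KJ.wpf_of_km (μ := unif K) hB (H2 n K hg),
    fun hn hs' => H4 n K hn h.comp h.conv.1 h.int (H3 n K hg) hs'⟩

end Pool.Agent.Results.MP_dc1397_gt.CurvedLayers
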