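import Pool.Agent.H59.SC.Main

/-!
# The hyperplane conjecture of KLS and convex functions with small fluctuations

Let `K ⊂ ℝⁿ` be a symmetric convex body with a direction in which the variance of the uniform law is at
least `λ` (for instance `λ = E |x|² / n`), and let `V : K → ℝ` be a continuous convex function with

`V ((x + y) / 2) ≤ (V(x) + V(y)) / 2 - δ` for all `x, y ∈ K` with `|x - y| ≥ t` (`Gain K V t δ`).

Then the interior `Ω` of `K` satisfies the inequality of Q1 with the constant

`C (t / √λ) (1 + σ / δ)` if `Var V ≤ σ²` on `K` (part 2 of `result`), where `C` is an absolute constant.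

So Q1 holds for the class of the bodies which have a convex function whose fluctuations are not much larger
than its gain of convexity at the distance `√λ`. Nothing is assumed about the form of `V`, about `K` being
a sublevel set of `V` or near to one, about the boundary of `K`, about symmetries or about the regularity of `V`.
Other forms and special cases:

* part 1 is the form in terms of levels, from which the other parts are derived: it is enough that
  `a - s ≤ V ≤ a` on the proportion `p` of the volume of `K` and `V > a` on a proportion of at most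
  `1 / 40000`; the constant is `C (t / √λ) (1 + s / (p δ))`, and `p` may be small.
* part 3: `V` with convexity constant `c` (`V'' ≥ c`) and variance at most `σ²`: the constant is
  `C √(σ / (c λ))`. For `V = |x|² / 2` this is the theorem of Bobkov (On isoperimetric constants for
  log-concave probability distributions, 2007), in which `σ` is the deviation of `|x|² / 2`.
* part 4, partly strongly convex bodies: if the points `y ∈ K` for which there is a ball `B ⊇ K` of radius `R`
  such that `y` lies in the shell of relative width `w` of `B`, make up the proportion `p` of the volume of `K`,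
  then the constant is `C R √(w / (p λ))`. (The balls may depend on `y`.) If the segments from a point `o` of
  the body to those boundary points `b` which have a supporting ball of radius `R` (`K ⊆ B(c, R)`,
  `|b - c| = R`) fill the proportion `q` of `K`, then this holds with `w = 2 / n` and `p = (1 - 1/e) q`
  (`|y - c| ≥ R - |b - o| / n` for `y = o + r (b - o)`, `r ≥ 1 - 1 / n`), so the constant is
  `C R / √(n q λ)`, with `n λ ≥ E |x|²`; the rest of the boundary is arbitrary. The case `q = 1` is that of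
  the strongly convex bodies (intersections of balls of radius `R`; Gromov-Milman 1987,
  Arias de Reyna-Ball-Villa 1998, Milman-Sodin 2008; `StronglyConvex` in `NestedNormCompositions`).
* `V` the square of the norm of `K` if the norm is uniformly convex, of any power type (`σ ≤ 2 / n`).

`CurvedLayers` is a form without explicit constants in which `V` has to be curved only in a layer, for the
metric of the covariance matrix.

Method. `K' = {V ≤ a}` is convex and `h = a - V ≥ 0` is concave on `K'`, so `|{h ≥ u}|` is a log-concave function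
of `u` (Prekopa-Leindler) and `|{h ≥ u}| ≤ e exp (-p u / (2 s)) |K'|`. Therefore `∫ exp (l h) ≤ (1 + e) |K'|` over
`K'` for `l ≤ p / (4 s)`. The gain of convexity at distance `r ≥ t` is at least `δ r / (2 t)` (iterate
midpoints). The Prekopa-Leindler inequality for `exp (k f + l h)`, `exp (-k f + l h)` and `exp (l h + 1 / 2)` with
`k = l δ / t`, `l δ ≤ 1` and a `1`-Lipschitz function `f`, gives `∫ exp (k f) ∫ exp (-k f) ≤ e ((1 + e) |K'|)²`
over `K'`, hence `Var f ≤ 176 / k²` on `K'`. This passes to sets of measure one half of `Ω` in the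
De Giorgi form with the discrete heat flow of the library (`Q188.SB`, `W695.KH`): the part `K \ K'` changes
the variances of the functions `|u| ≤ 1` by a small absolute constant only, and weak Poincare
inequalities with a small additive constant are enough for sets of measure one half. The comparison with
hyperplane sections is that of the library too.

The modules `Pool.Agent.H59.L` are copies of modules of the library (see the files there for the authors).
-/

set_option autoImplicit false

namespace Pool.Agent.Results.MP_dc1397_gt.SmallFluctuations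

open MeasureTheory Set
open scoped ENNReal InnerProductSpace Pointwise

/-- Euclidean space of dimension `n` -/
abbrev Euc (n : ℕ) : Type := EuclideanSpace ℝ (Fin n)

/-- the uniform probability measure on `K` -/
noncomputable def unif {n : ℕ} (K : Set (Euc n)) : Measure (Euc n) :=
  (volume K)⁻¹ • volume.restrict K

/-- symmetric convex bodies `K ⊂ ℝⁿ`, `n ≥ 1`, such that the variance of `⟪x, θ⟫` over `K` is at least
`lam > 0` for some `θ` of length one -/
structure SymBody {n : ℕ} (K : Set (Euc n)) (lam : ℝ) : Prop where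
  dim : 1 ≤ n
  comp : IsCompact K
  conv : Convex ℝ K
  int : (interior K).Nonempty
  symm : ∀ x ∈ K, -x ∈ K
  pos : 0 < lam
  wide : ∃ θ : Euc n, ‖θ‖ = 1 ∧ lam ≤ ∫ x, ⟪x, θ⟫_ℝ ^ 2 ∂(unif K)

/-- `V` is a continuous convex function on `K`, and `V ((x + y) / 2) ≤ (V x + V y) / 2 - δ` for all points
`x`, `y` of `K` with `|x - y| ≥ t` -/
structure Gain {n : ℕ} (K : Set (Euc n)) (V : Euc n → ℝ) (t δ : ℝ) : Prop where
  cont : ContinuousOn V K
  conv : ConvexOn ℝ K V
  tpos : 0 < t
  pos : 0 < δ
  gain : ∀ x ∈ K, ∀ y ∈ K, t ≤ ‖x - y‖ → V ((1 / 2 : ℝ) • (x + y)) + δ ≤ (V x + V y) / 2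

/-- the points `y` such that `(1 - w) R ≤ |y - c|` for some ball `B(c, R)` which contains `K` -/
def nearSphere {n : ℕ} (K : Set (Euc n)) (R w : ℝ) : Set (Euc n) :=
  {y | ∃ c : Euc n, K ⊆ Metric.closedBall c R ∧ (1 - w) * R ≤ ‖y - c‖}

/-- the Lebesgue measure of a Euclidean space -/
noncomputable def lebesgue (F : Type) [NormedAddCommGroup F] [InnerProductSpace ℝ F]
    [FiniteDimensional ℝ F] [MeasurableSpace F] [BorelSpace F] : Measure F := volume

/-- the Lebesgue measure (of the Euclidean space `W`) of the section `Ω ∩ W` by a subspace `W` -/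
noncomputable def areaIn {F : Type} [NormedAddCommGroup F] [InnerProductSpace ℝ F]
    [FiniteDimensional ℝ F] [MeasurableSpace F] [BorelSpace F] (W : Submodule ℝ F) (Ω : Set F) :
    ℝ≥0∞ := lebesgue W {y : W | (y : F) ∈ Ω}

section defs

variable {κ : Type} [Fintype κ]

open Classical in
/-- divergence of a vector field on `ℝ^κ` -/
noncomputable def divergence (X : EuclideanSpace ℝ κ → EuclideanSpace ℝ κ)
    (x : EuclideanSpace ℝ κ) : ℝ :=
  ∑ i, fderiv ℝ X x (EuclideanSpace.single i 1) i

/-- `C¹` vector fields with compact support in `Ω` and `‖X‖ ≤ 1` -/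
structure Test (Ω : Set (EuclideanSpace ℝ κ)) (X : EuclideanSpace ℝ κ → EuclideanSpace ℝ κ) :
    Prop where
  diff : ContDiff ℝ 1 X
  comp : HasCompactSupport X
  sub : tsupport X ⊆ Ω
  le : ∀ x, ‖X x‖ ≤ 1

/-- the (De Giorgi) perimeter `P(E; Ω)` of `E` relative to the open set `Ω` -/
noncomputable def perimeter (E Ω : Set (EuclideanSpace ℝ κ)) : ℝ≥0∞ :=
  ⨆ (X : EuclideanSpace ℝ κ → EuclideanSpace ℝ κ) (_ : Test Ω X),
    ENNReal.ofReal (∫ x in E, divergence X x)

/-- the area (Lebesgue measure in the hyperplane `a^⊥`) of the central section of `Ω` by `a^⊥` -/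
noncomputable def sectionArea (Ω : Set (EuclideanSpace ℝ κ)) (a : EuclideanSpace ℝ κ) : ℝ≥0∞ :=
  areaIn (Submodule.span ℝ {a})ᗮ Ω

/-- some central hyperplane section has area at most `C P(E; Ω)` for every measurable `E ⊆ Ω` with
`|E| = |Ω| / 2` -/
def HyperplaneBound (C : ℝ) (Ω : Set (EuclideanSpace ℝ κ)) : Prop :=
  ∃ a : EuclideanSpace ℝ κ, a ≠ 0 ∧ ∀ E : Set (EuclideanSpace ℝ κ), MeasurableSet E → E ⊆ Ω →
    volume E = volume Ω / 2 → sectionArea Ω a ≤ ENNReal.ofReal C * perimeter E Ω

/-- the perimeter is the one used in the proof -/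
theorem perimeter_eq (E Ω : Set (EuclideanSpace ℝ κ)) :
    Pool.Agent.W695.KH.per E Ω = perimeter E Ω := by
  unfold perimeter Pool.Agent.W695.KH.per
  refine iSup_congr fun X => ?_
  refine iSup_congr_Prop ⟨fun h => ⟨h.1, h.2.1, h.2.2.1, h.2.2.2⟩,
    fun h => ⟨h.diff, h.comp, h.sub, h.le⟩⟩ fun _ => rfl

theorem HyperplaneBound.mono {C C' : ℝ} {Ω : Set (EuclideanSpace ℝ κ)} (h : HyperplaneBound C Ω)
    (hC : C ≤ C') : HyperplaneBound C' Ω := by
  obtain ⟨a, ha, h⟩ := h
  refine ⟨a, ha, fun E hE hEΩ hvol => (h E hE hEΩ hvol).trans ?_⟩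
  gcongr

end defs

theorem SymBody.vol_ne {n : ℕ} {K : Set (Euc n)} {lam : ℝ} (hK : SymBody K lam) :
    volume K ≠ 0 :=
  (lt_of_lt_of_le (isOpen_interior.measure_pos volume hK.int) (measure_mono interior_subset)).ne'

theorem SymBody.prob {n : ℕ} {K : Set (Euc n)} {lam : ℝ} (hK : SymBody K lam) :
    IsProbabilityMeasure (unif K) := by
  refine ⟨?_⟩
  unfold unif
  rw [Measure.smul_apply, Measure.restrict_apply_univ, smul_eq_mul,
    ENNReal.inv_mul_cancel hK.vol_ne hK.comp.measure_lt_top.ne]

theorem SymBody.mul_unif {n : ℕ} {K : Set (Euc n)} {lam : ℝ} (hK : SymBody K lam)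
    (S : Set (Euc n)) : volume K * unif K S = volume (K ∩ S) := by
  unfold unif
  rw [Measure.smul_apply, Measure.restrict_apply' hK.comp.measurableSet, smul_eq_mul, ← mul_assoc,
    ENNReal.mul_inv_cancel hK.vol_ne hK.comp.measure_lt_top.ne, one_mul, inter_comm]

theorem int_unif {n : ℕ} (K : Set (Euc n)) (g : Euc n → ℝ) :
    ∫ x, g x ∂(unif K) = Pool.Agent.W695.KH.EV K g := by
  unfold unif Pool.Agent.W695.KH.EV
  rw [integral_smul_measure, ENNReal.toReal_inv, smul_eq_mul]
  ring

theorem levels : ∃ C : ℝ, 0 < C ∧ ∀ (n : ℕ) (K : Set (Euc n)) (lam : ℝ), SymBody K lam →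
    ∀ (V : Euc n → ℝ) (t δ a s p : ℝ), Gain K V t δ → 0 < s → 0 < p →
      unif K {x | a < V x} ≤ ENNReal.ofReal (1 / 40000) →
      ENNReal.ofReal p ≤ unif K {x | a - s ≤ V x ∧ V x ≤ a} →
      HyperplaneBound (C * (t / √lam * (1 + s / (p * δ)))) (interior K) := by
  obtain ⟨C, hC, H⟩ := Pool.Agent.H59.SC.main
  refine ⟨C, hC, ?_⟩
  intro n K lam hK V t δ a s p hG hs hp habove hnear
  have hne : Nonempty (Fin n) := ⟨⟨0, hK.dim⟩⟩
  obtain ⟨θ, hθ, hl⟩ := hK.wide
  rw [int_unif] at hl
  obtain ⟨b, hb, h⟩ := H (Fin n) K hK.comp hK.conv hK.int hK.symm V t δ a s p lam hG.tpos hG.pos hs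
    hp hK.pos hG.cont hG.conv hG.gain
    (by rw [← hK.mul_unif, mul_comm]; gcongr)
    (by rw [← hK.mul_unif, mul_comm]; gcongr) ⟨θ, hθ, by
      simpa only [real_inner_comm] using hl⟩
  refine ⟨b, hb, fun E hE hEΩ hvol => ?_⟩
  have h4 := h E hE hEΩ hvol
  rw [perimeter_eq] at h4
  exact h4

theorem variance : ∃ C : ℝ, 0 < C ∧ ∀ (n : ℕ) (K : Set (Euc n)) (lam : ℝ), SymBody K lam →
    ∀ (V : Euc n → ℝ) (t δ σ : ℝ), Gain K V t δ → 0 < σ →
      ProbabilityTheory.variance V (unif K) ≤ σ ^ 2 →
      HyperplaneBound (C * (t / √lam * (1 + σ / δ))) (interior K) := by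
  obtain ⟨C, hC, H⟩ := levels
  refine ⟨C * 800, by positivity, ?_⟩
  intro n K lam hK V t δ σ hG hσ hV
  have hp := hK.prob
  have hm : MemLp V 2 (unif K) := by
    obtain ⟨B, hB⟩ := hK.comp.exists_bound_of_continuousOn hG.cont
    refine MemLp.of_bound ?_ B ?_
    · exact (hG.cont.aestronglyMeasurable hK.comp.measurableSet).smul_measure _
    · unfold unif
      refine Measure.ae_smul_measure ?_ _
      filter_upwards [ae_restrict_mem hK.comp.measurableSet] with x hx
      exact hB x hx
  have h1 := ProbabilityTheory.meas_ge_le_variance_div_sq hm (c := 200 * σ) (by positivity)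
  set m := ∫ x, V x ∂(unif K) with hmd
  have h2 : unif K {x | 200 * σ ≤ |V x - m|} ≤ ENNReal.ofReal (1 / 40000) := by
    refine h1.trans (ENNReal.ofReal_le_ofReal ?_)
    rw [div_le_iff₀ (by positivity)]
    nlinarith
  have h3 := H n K lam hK V t δ (m + 200 * σ) (400 * σ) (1 / 2) hG (by positivity) (by norm_num)
    (by
      refine (measure_mono ?_).trans h2
      intro x hx
      have hx' : m + 200 * σ < V x := hx
      show 200 * σ ≤ |V x - m|
      exact le_trans (by linarith) (le_abs_self _))
    (by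
      have h4 : {x | 200 * σ ≤ |V x - m|}ᶜ ⊆
          {x | m + 200 * σ - 400 * σ ≤ V x ∧ V x ≤ m + 200 * σ} := by
        intro x hx
        have hx' : ¬ 200 * σ ≤ |V x - m| := hx
        push Not at hx'
        rw [abs_lt] at hx'
        exact ⟨by linarith [hx'.1], by linarith [hx'.2]⟩
      have h5 : 1 ≤ unif K {x | 200 * σ ≤ |V x - m|} +
          unif K {x | m + 200 * σ - 400 * σ ≤ V x ∧ V x ≤ m + 200 * σ} := by
        rw [← measure_univ (μ := unif K), ← union_compl_self {x | 200 * σ ≤ |V x - m|}]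
        exact (measure_union_le _ _).trans (by gcongr)
      have h6 : (1 : ℝ≥0∞) ≤ ENNReal.ofReal (1 / 2) +
          unif K {x | m + 200 * σ - 400 * σ ≤ V x ∧ V x ≤ m + 200 * σ} :=
        h5.trans (by
          gcongr
          exact h2.trans (ENNReal.ofReal_le_ofReal (by norm_num)))
      have h7 : (1 : ℝ≥0∞) = ENNReal.ofReal (1 / 2) + ENNReal.ofReal (1 / 2) := by
        rw [← ENNReal.ofReal_add (by norm_num) (by norm_num)]
        norm_num
      rw [h7] at h6
      exact (ENNReal.add_le_add_iff_left ENNReal.ofReal_ne_top).1 h6)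
  refine h3.mono ?_
  have hδ := hG.pos
  have ht := hG.tpos
  have hl : 0 < √lam := Real.sqrt_pos.2 hK.pos
  rw [mul_assoc C 800]
  refine mul_le_mul_of_nonneg_left ?_ hC.le
  have e : 400 * σ / (1 / 2 * δ) = 800 * (σ / δ) := by field_simp; norm_num
  rw [e]
  have h8 : 0 ≤ σ / δ := by positivity
  have h9 : 0 ≤ t / √lam := by positivity
  nlinarith

open Pool.Agent.Q188.SB in
/-- the function of the supporting balls -/
theorem ball_gain {n : ℕ} {K : Set (Euc n)} (hK : IsCompact K) (hc : Convex ℝ K) (hne : K.Nonempty)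
    {R : ℝ} (hZ : (Zc K R).Nonempty) {r : ℝ} (hr : 0 < r) :
    Gain K (fun x => -hh K R x) (√(8 * r)) r ∧ ∀ x ∈ K, 0 ≤ hh K R x := by
  have hsp := hh_spec K hne R hZ
  refine ⟨⟨(hh_cont K hne R).neg.continuousOn, ⟨hc, fun x hx y hy a b ha hb hab => ?_⟩,
    Real.sqrt_pos.2 (by positivity), hr, fun x hx y hy hxy => ?_⟩, fun x hx => ?_⟩
  · obtain ⟨z, hz, hzx⟩ := (hsp (a • x + b • y)).2
    have h1 := (hsp x).1 z hz
    have h2 := (hsp y).1 z hz
    have h3 : ‖a • x + b • y - z‖ ^ 2 ≤ a * ‖x - z‖ ^ 2 + b * ‖y - z‖ ^ 2 := by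
      have e1 : a • x + b • y - z = a • (x - z) + b • (y - z) := by
        have : z = (a + b) • z := by rw [hab, one_smul]
        conv_lhs => rw [this]
        module
      have e2 : a = 1 - b := by linarith
      rw [e1, norm_add_sq_real, norm_smul, norm_smul, inner_smul_left, inner_smul_right,
        Real.norm_of_nonneg ha, Real.norm_of_nonneg hb]
      have h4 := norm_sub_sq_real (x - z) (y - z)
      have h5 : 0 ≤ a * b * ‖x - z - (y - z)‖ ^ 2 := by positivity
      rw [h4] at h5
      simp only [conj_trivial]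
      subst e2
      nlinarith
    simp only [smul_eq_mul]
    rw [hzx]
    have h6 := mul_le_mul_of_nonneg_left h1 ha
    have h7 := mul_le_mul_of_nonneg_left h2 hb
    have h8 : a * ((R ^ 2 - ‖x - z‖ ^ 2) / 2) + b * ((R ^ 2 - ‖y - z‖ ^ 2) / 2) =
        ((a + b) * R ^ 2 - (a * ‖x - z‖ ^ 2 + b * ‖y - z‖ ^ 2)) / 2 := by ring
    rw [hab, one_mul] at h8
    linarith
  · obtain ⟨z, hz, hzx⟩ := (hsp ((1 / 2 : ℝ) • (x + y))).2
    have h1 := (hsp x).1 z hz
    have h2 := (hsp y).1 z hz
    rw [hzx]
    have h3 : ‖(1 / 2 : ℝ) • (x + y) - z‖ ^ 2 = (‖x - z‖ ^ 2 + ‖y - z‖ ^ 2) / 2 - ‖x - y‖ ^ 2 / 4 := by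
      have e1 : (1 / 2 : ℝ) • (x + y) - z = (1 / 2 : ℝ) • ((x - z) + (y - z)) := by module
      have e2 : x - y = (x - z) - (y - z) := by abel
      have h4 := parallelogram_law_with_norm ℝ (x - z) (y - z)
      rw [e1, e2, norm_smul]
      have : ‖(1 / 2 : ℝ)‖ = 1 / 2 := by norm_num
      rw [this]
      nlinarith [h4]
    have h5 : 8 * r ≤ ‖x - y‖ ^ 2 := by
      have := pow_le_pow_left₀ (Real.sqrt_nonneg _) hxy 2
      rwa [Real.sq_sqrt (by positivity)] at this
    rw [h3]
    linarith
  · obtain ⟨z, hz, hzx⟩ := (hsp x).2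
    rw [hzx]
    have h1 := hz x hx
    have h2 := norm_nonneg (x - z)
    nlinarith

/-- **Convex functions with small fluctuations.** There is an absolute constant `C > 0` such that for every
symmetric convex body `K ⊂ ℝⁿ` with variance at least `λ` in some direction (`SymBody K λ`) the interior
`Ω` of `K` has a central hyperplane section `Ω ∩ a^⊥` with `H_{n-1}(Ω ∩ a^⊥) ≤ k P(E; Ω)` for every
measurable `E ⊆ Ω` with `|E| = |Ω| / 2` (`HyperplaneBound k Ω`), where
(1) `k = C (t / √λ) (1 + s / (p δ))`, if there is a continuous convex function `V` on `K` with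
  `V ((x + y) / 2) ≤ (V x + V y) / 2 - δ` for `|x - y| ≥ t` (`Gain K V t δ`), `V > a` with probability at most
  `1 / 40000` and `a - s ≤ V ≤ a` with probability at least `p`;
(2) `k = C (t / √λ) (1 + σ / δ)`, if there is a function `V` with `Gain K V t δ` and variance at most `σ²`;
(3) `k = C √(σ / (c λ))`, if there is a continuous strongly convex function `V` on `K` with constant `c`
  and variance at most `σ²`;
(4) `k = C R √(w / (p λ))`, if `x` belongs with probability at least `p` to the shell
  `{y | (1 - w) R ≤ |y - c|}` of some ball `B(c, R) ⊇ K`, which may depend on `x` (`nearSphere K R w`). -/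
theorem result : ∃ C : ℝ, 0 < C ∧ ∀ (n : ℕ) (K : Set (Euc n)) (lam : ℝ), SymBody K lam →
    (∀ (V : Euc n → ℝ) (t δ a s p : ℝ), Gain K V t δ → 0 < s → 0 < p →
      unif K {x | a < V x} ≤ ENNReal.ofReal (1 / 40000) →
      ENNReal.ofReal p ≤ unif K {x | a - s ≤ V x ∧ V x ≤ a} →
      HyperplaneBound (C * (t / √lam * (1 + s / (p * δ)))) (interior K)) ∧
    (∀ (V : Euc n → ℝ) (t δ σ : ℝ), Gain K V t δ → 0 < σ →
      ProbabilityTheory.variance V (unif K) ≤ σ ^ 2 →
      HyperplaneBound (C * (t / √lam * (1 + σ / δ))) (interior K)) ∧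
    (∀ (V : Euc n → ℝ) (c σ : ℝ), ContinuousOn V K → 0 < c → StrongConvexOn K c V → 0 < σ →
      ProbabilityTheory.variance V (unif K) ≤ σ ^ 2 →
      HyperplaneBound (C * √(σ / (c * lam))) (interior K)) ∧
    (∀ R w p : ℝ, 0 < R → 0 < w → 0 < p → ENNReal.ofReal p ≤ unif K (nearSphere K R w) →
      HyperplaneBound (C * (R * √(w / (p * lam)))) (interior K)) := by
  obtain ⟨C1, hC1, H1⟩ := levels
  obtain ⟨C2, hC2, H2⟩ := variance
  refine ⟨6 * (C1 + C2), by positivity, ?_⟩
  intro n K lam hK
  have hl : 0 < √lam := Real.sqrt_pos.2 hK.pos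
  have hlam := hK.pos
  have p1 : ∀ (V : Euc n → ℝ) (t δ a s p : ℝ), Gain K V t δ → 0 < s → 0 < p →
      unif K {x | a < V x} ≤ ENNReal.ofReal (1 / 40000) →
      ENNReal.ofReal p ≤ unif K {x | a - s ≤ V x ∧ V x ≤ a} →
      HyperplaneBound (C1 * (t / √lam * (1 + s / (p * δ)))) (interior K) :=
    fun V t δ a s p hG => H1 n K lam hK V t δ a s p hG
  have p2 : ∀ (V : Euc n → ℝ) (t δ σ : ℝ), Gain K V t δ → 0 < σ →
      ProbabilityTheory.variance V (unif K) ≤ σ ^ 2 →
      HyperplaneBound (C2 * (t / √lam * (1 + σ / δ))) (interior K) :=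
    fun V t δ σ hG => H2 n K lam hK V t δ σ hG
  refine ⟨fun V t δ a s p hG hs hp h1 h2 => (p1 V t δ a s p hG hs hp h1 h2).mono ?_,
    fun V t δ σ hG hσ hV => (p2 V t δ σ hG hσ hV).mono ?_,
    fun V c σ hVc hc hV hσ hvar => ?_, fun R w p hR hw hp h => ?_⟩
  · have := hG.pos
    have := hG.tpos
    have h3 : 0 ≤ t / √lam * (1 + s / (p * δ)) := by positivity
    nlinarith [mul_nonneg hC1.le h3, mul_nonneg hC2.le h3]
  · have := hG.pos
    have := hG.tpos
    have h3 : 0 ≤ t / √lam * (1 + σ / δ) := by positivity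
    nlinarith [mul_nonneg hC1.le h3, mul_nonneg hC2.le h3]
  · have hG : Gain K V (√(8 * σ / c)) σ := by
      refine ⟨hVc, hV.convexOn ?_, Real.sqrt_pos.2 (by positivity), hσ, fun x hx y hy hxy => ?_⟩
      · intro r
        positivity
      · have h1 := hV.2 hx hy (by norm_num : (0 : ℝ) ≤ 1 / 2) (by norm_num : (0 : ℝ) ≤ 1 / 2)
          (by norm_num)
        rw [← smul_add] at h1
        simp only [smul_eq_mul] at h1
        have h2 : 8 * σ / c ≤ ‖x - y‖ ^ 2 := by
          have := pow_le_pow_left₀ (Real.sqrt_nonneg _) hxy 2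
          rwa [Real.sq_sqrt (by positivity)] at this
        rw [div_le_iff₀ hc] at h2
        linarith
    refine (p2 V _ _ σ hG hσ hvar).mono ?_
    have e1 : √(8 * σ / c) / √lam = √8 * √(σ / (c * lam)) := by
      rw [← Real.sqrt_div (by positivity), ← Real.sqrt_mul (by norm_num)]
      congr 1
      field_simp
    rw [e1, div_self hσ.ne']
    have h8 : √8 ≤ 3 := by
      rw [Real.sqrt_le_left (by norm_num)]
      norm_num
    have h9 : 0 ≤ √(σ / (c * lam)) := Real.sqrt_nonneg _
    calc C2 * (√8 * √(σ / (c * lam)) * (1 + 1)) ≤ C2 * (3 * √(σ / (c * lam)) * (1 + 1)) := by gcongr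
      _ = 6 * C2 * √(σ / (c * lam)) := by ring
      _ ≤ _ := by
        have := mul_nonneg hC1.le h9
        nlinarith
  · have hne : K.Nonempty := hK.int.mono interior_subset
    have hp' := hK.prob
    have hZ : (Pool.Agent.Q188.SB.Zc K R).Nonempty := by
      by_contra hcon
      have h1 : nearSphere K R w = ∅ := by
        rw [eq_empty_iff_forall_notMem]
        rintro y ⟨c, hc, -⟩
        exact hcon ⟨c, fun x hx => mem_closedBall_iff_norm.1 (hc hx)⟩
      rw [h1, measure_empty] at h
      exact absurd (ENNReal.ofReal_eq_zero.1 (le_antisymm h bot_le)) (not_le.2 hp)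
    have hr : 0 < w * R ^ 2 / p := by positivity
    obtain ⟨hG, h0⟩ := ball_gain hK.comp hK.conv hne hZ hr
    have h3 := p1 _ _ _ 0 (w * R ^ 2) p hG (by positivity) hp (by
      have h4 : volume K * unif K {x | 0 < -Pool.Agent.Q188.SB.hh K R x} = 0 := by
        rw [hK.mul_unif]
        have : K ∩ {x | 0 < -Pool.Agent.Q188.SB.hh K R x} = ∅ := by
          rw [eq_empty_iff_forall_notMem]
          rintro x ⟨h5, h6⟩
          have h7 := h0 x h5
          have h8 : 0 < -Pool.Agent.Q188.SB.hh K R x := h6
          linarith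
        rw [this, measure_empty]
      have h5 := (mul_eq_zero.1 h4).resolve_left hK.vol_ne
      rw [h5]
      exact bot_le) (by
      refine h.trans ?_
      have h4 : volume K * unif K (nearSphere K R w) ≤ volume K * unif K
          {x | 0 - w * R ^ 2 ≤ -Pool.Agent.Q188.SB.hh K R x ∧ -Pool.Agent.Q188.SB.hh K R x ≤ 0} := by
        rw [hK.mul_unif, hK.mul_unif]
        refine measure_mono ?_
        rintro x ⟨h5, c, h6, h7⟩
        refine ⟨h5, ?_, ?_⟩
        · have h8 := ((Pool.Agent.Q188.SB.hh_spec K hne R hZ) x).1 c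
            (fun y hy => mem_closedBall_iff_norm.1 (h6 hy))
          have h9 := norm_nonneg (x - c)
          show 0 - w * R ^ 2 ≤ -Pool.Agent.Q188.SB.hh K R x
          rcases le_or_gt w 1 with hw1 | hw1
          · have h10 : ((1 - w) * R) ^ 2 ≤ ‖x - c‖ ^ 2 :=
              pow_le_pow_left₀ (mul_nonneg (by linarith) hR.le) h7 2
            have h11 : 0 ≤ w ^ 2 * R ^ 2 := by positivity
            nlinarith
          · have h10 : 0 ≤ ‖x - c‖ ^ 2 := sq_nonneg _
            have h11 : 0 ≤ (w - 1) * R ^ 2 := mul_nonneg (by linarith) (sq_nonneg _)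
            have h12 : 0 ≤ R ^ 2 := sq_nonneg _
            nlinarith
        · have := h0 x h5
          show -Pool.Agent.Q188.SB.hh K R x ≤ 0
          linarith
      exact (ENNReal.mul_le_mul_iff_right hK.vol_ne hK.comp.measure_lt_top.ne).1 h4)
    refine h3.mono ?_
    have e1 : √(8 * (w * R ^ 2 / p)) / √lam = √8 * (R * √(w / (p * lam))) := by
      have e2 : 8 * (w * R ^ 2 / p) = 8 * (R ^ 2 * (w / p)) := by ring
      have e3 : √(w / (p * lam)) = √(w / p) / √lam := by
        rw [← div_div, Real.sqrt_div (by positivity : (0 : ℝ) ≤ w / p)]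
      rw [e2, Real.sqrt_mul (by norm_num), Real.sqrt_mul (sq_nonneg R), Real.sqrt_sq hR.le, e3]
      ring
    have e2 : w * R ^ 2 / (p * (w * R ^ 2 / p)) = 1 := by field_simp
    rw [e1, e2]
    have h8 : √8 ≤ 3 := by
      rw [Real.sqrt_le_left (by norm_num)]
      norm_num
    have h9 : 0 ≤ R * √(w / (p * lam)) := mul_nonneg hR.le (Real.sqrt_nonneg _)
    calc C1 * (√8 * (R * √(w / (p * lam))) * (1 + 1)) ≤
        C1 * (3 * (R * √(w / (p * lam))) * (1 + 1)) := by gcongr
      _ = 6 * C1 * (R * √(w / (p * lam))) := by ring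
      _ ≤ _ := by
        have := mul_nonneg hC2.le h9
        nlinarith

end Pool.Agent.Results.MP_dc1397_gt.SmallFluctuations
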